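import Pool.Agent.W4.VC.Stms

/-!
# Project VC, part SELW: a number with a large powerful part is divisible by the square of a number
in a given range, or by the square of a large prime
-/

set_option autoImplicit false

namespace Pool.Agent.W327.VC.Selw

open Finset Pool.Agent.W4.VC

/-- the largest number obtained by halving all exponents -/
def rt (n : ℕ) : ℕ := ∏ p ∈ n.primeFactors, p ^ (n.factorization p / 2)

lemma rt_sq_dvd {n : ℕ} (hn : 1 ≤ n) : rt n ^ 2 ∣ n := by
  have h : n = ∏ p ∈ n.primeFactors, p ^ n.factorization p :=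
    (Nat.prod_factorization_pow_eq_self (by omega : n ≠ 0)).symm
  have h2 : rt n ^ 2 ∣ ∏ p ∈ n.primeFactors, p ^ n.factorization p := by
    unfold rt
    rw [← Finset.prod_pow]
    refine Finset.prod_dvd_prod_of_dvd _ _ fun p _ => ?_
    rw [← pow_mul]
    exact pow_dvd_pow _ (Nat.div_mul_le_self _ _)
  rwa [← h] at h2

lemma rt_pos (n : ℕ) : 1 ≤ rt n := by
  unfold rt
  refine Finset.one_le_prod' fun p hp => ?_
  exact Nat.one_le_pow _ _ (Nat.prime_of_mem_primeFactors hp).pos

lemma pw_le (n : ℕ) : pw n ≤ rt n ^ 3 := by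
  unfold pw rt
  rw [← Finset.prod_pow]
  calc ∏ p ∈ n.primeFactors.filter (fun p => n.factorization p ≠ 1), p ^ n.factorization p
      ≤ ∏ p ∈ n.primeFactors.filter (fun p => n.factorization p ≠ 1),
          (p ^ (n.factorization p / 2)) ^ 3 := by
        refine Finset.prod_le_prod' fun p hp => ?_
        rw [Finset.mem_filter] at hp
        rw [← pow_mul]
        refine Nat.pow_le_pow_right (Nat.prime_of_mem_primeFactors hp.1).pos ?_
        have := hp.2
        omega
    _ ≤ ∏ p ∈ n.primeFactors, (p ^ (n.factorization p / 2)) ^ 3 := by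
        refine Finset.prod_le_prod_of_subset_of_one_le' (Finset.filter_subset _ _) ?_
        intro p hp _
        rw [← pow_mul]
        exact Nat.one_le_pow _ _ (Nat.prime_of_mem_primeFactors hp).pos

theorem t_SELW : S_SELW := by
  intro n T U hn hT hTU hpw
  have hd1 : 1 ≤ rt n := rt_pos n
  have hd2 : rt n ^ 2 ∣ n := rt_sq_dvd hn
  have hdT : T ≤ (rt n : ℝ) := by
    have h : T ^ 3 ≤ (rt n : ℝ) ^ 3 := by
      refine hpw.trans ?_
      exact_mod_cast pw_le n
    exact le_of_pow_le_pow_left₀ (by norm_num) (by positivity) h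
  generalize rt n = d at hd1 hd2 hdT
  have hU1 : 1 ≤ U := by nlinarith
  have hTU' : T ≤ U := by nlinarith
  by_cases hdU : (d : ℝ) ≤ U
  · exact Or.inl ⟨d, hd2, hdT, hdU⟩
  push Not at hdU
  have hne : (d.divisors.filter (fun e : ℕ => (e : ℝ) ≤ U)).Nonempty := by
    refine ⟨1, ?_⟩
    rw [Finset.mem_filter, Nat.mem_divisors]
    refine ⟨⟨one_dvd _, by omega⟩, ?_⟩
    simpa using hU1
  obtain ⟨e, he, hmax⟩ := Finset.exists_max_image _ (fun e : ℕ => e) hne
  rw [Finset.mem_filter, Nat.mem_divisors] at he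
  obtain ⟨⟨hed, _⟩, heU⟩ := he
  have hsq : ∀ k : ℕ, k ∣ d → k ^ 2 ∣ n := fun k hk => (pow_dvd_pow_of_dvd hk 2).trans hd2
  by_cases heT : T ≤ (e : ℝ)
  · exact Or.inl ⟨e, hsq e hed, heT, heU⟩
  push Not at heT
  obtain ⟨c, hc⟩ := hed
  have he0 : 1 ≤ e := by
    rcases Nat.eq_zero_or_pos e with h | h
    · subst h; simp at hc; omega
    · exact h
  have hc1 : c ≠ 1 := by
    rintro rfl
    rw [mul_one] at hc
    subst hc
    linarith
  obtain ⟨p, hp, hpc⟩ := Nat.exists_prime_and_dvd hc1
  have hepd : e * p ∣ d := by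
    rw [hc]
    exact Nat.mul_dvd_mul_left e hpc
  have hpd : p ∣ d := (Dvd.intro_left e rfl).trans hepd
  have hepU : U < (e : ℝ) * (p : ℝ) := by
    by_contra hcon
    push Not at hcon
    have hmem : e * p ∈ d.divisors.filter (fun e : ℕ => (e : ℝ) ≤ U) := by
      rw [Finset.mem_filter, Nat.mem_divisors]
      refine ⟨⟨hepd, by omega⟩, ?_⟩
      push_cast
      exact hcon
    have h := hmax _ hmem
    have h2 := hp.two_le
    have h : e * p ≤ e := h
    nlinarith
  have hp0 : (0 : ℝ) < (p : ℝ) := by exact_mod_cast hp.pos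
  have hpT : T ≤ (p : ℝ) := by
    have h1 : U < T * (p : ℝ) := hepU.trans_le (mul_le_mul_of_nonneg_right heT.le hp0.le)
    by_contra hcon
    push Not at hcon
    nlinarith
  by_cases hpU : (p : ℝ) ≤ U
  · exact Or.inl ⟨p, hsq p hpd, hpT, hpU⟩
  · push Not at hpU
    exact Or.inr ⟨p, hp, hpU, hsq p hpd⟩

end Pool.Agent.W327.VC.Selw
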